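import Mathlib
import Pool.Agent.Lib_MP_080eaf_nt.Defs
import Pool.Agent.Lib_MP_080eaf_nt.Final

namespace Pool.Agent.Results.MP_080eaf_nt.NotIndependent

open Pool.Agent.Lib_MP_080eaf_nt

/-- For every prime `p`, every `d ≥ 1` and every non-trivial smooth character `ψ` there are
nonempty, closed, disjoint sets `I₁, I₂ ⊆ X = P \ Sp_{2d}(ℚ_p)` whose norms are not independent. -/
theorem result (p : ℕ) [Fact p.Prime] (d : ℕ) (hd : 1 ≤ d) (ψ : SmoothCharacter p) :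
    ∃ I₁ I₂ : Set (GrassX p d), I₁.Nonempty ∧ I₂.Nonempty ∧ IsClosed I₁ ∧ IsClosed I₂ ∧
      Disjoint I₁ I₂ ∧ ¬ AreIndependent (normOnX ψ I₁) (normOnX ψ I₂) :=
  mainS p d hd ψ

end Pool.Agent.Results.MP_080eaf_nt.NotIndependent
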